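import Pool.Agent.H28.GU.TargetsC

/-!
[FR] Restriction of a graph of small doubling to the graph of a Freiman homomorphism
(project GU on `MP_c59857_nt`).
-/

set_option autoImplicit false

open Finset Filter Topology
open scoped Pointwise

namespace Pool.Agent.H61.GU

open Pool.Agent.H28.GU

/-- `nr` is at most the absolute value of any representative, divided by `q` -/
lemma nr_le_of_cast {q : ℕ} [NeZero q] (x : ZMod q) (i : ℤ) (h : (i : ZMod q) = x) :
    nr x ≤ |(i : ℝ)| / q := by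
  unfold nr
  have hq : (0 : ℝ) < q := by exact_mod_cast Nat.pos_of_ne_zero (NeZero.ne q)
  refine div_le_div_of_nonneg_right ?_ hq.le
  have h1 : x.valMinAbs.natAbs ≤ i.natAbs := by
    refine ZMod.natAbs_min_of_le_div_two q x.valMinAbs i ?_ (ZMod.natAbs_valMinAbs_le x)
    rw [ZMod.coe_valMinAbs, h]
  rw [← Int.cast_abs, ← Int.cast_abs, ← Int.natCast_natAbs, ← Int.natCast_natAbs]
  exact_mod_cast h1

lemma nr_sum_le (hNR : T_NR) {q : ℕ} [NeZero q] {ι : Type} (s : Finset ι) (f : ι → ZMod q) :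
    nr (∑ i ∈ s, f i) ≤ ∑ i ∈ s, nr (f i) := by
  classical
  induction s using Finset.induction_on with
  | empty =>
    rw [Finset.sum_empty, Finset.sum_empty]
    unfold nr
    rw [ZMod.valMinAbs_zero]
    simp
  | insert a s ha ih =>
    rw [Finset.sum_insert ha, Finset.sum_insert ha]
    have h := (hNR q).2.2.1 (f a) (∑ i ∈ s, f i)
    linarith

theorem pf_FR (hFV : T_FV) (hRD : T_RD) (hNR : T_NR) : T_FR := by
  classical
  intro C hC
  obtain ⟨k, hk⟩ := hFV C hC
  obtain ⟨κ, hκ, hr⟩ := hRD k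
  obtain ⟨L, hL⟩ : ∃ L : ℕ, L = ⌈7 / κ⌉₊ + 1 := ⟨_, rfl⟩
  have hL0 : (0 : ℝ) < L := by
    rw [hL]
    positivity
  refine ⟨1 / L, by positivity, ?_⟩
  intro q _ Γ hne hinj hdbl
  obtain ⟨V, hVc, hV⟩ := hk q Γ hne hinj hdbl
  obtain ⟨r, hr0, hrV⟩ := hr q V hVc
  have hq : (0 : ℝ) < q := by exact_mod_cast (Fact.out : q.Prime).pos
  obtain ⟨j, hj⟩ : ∃ j : ZMod q × ZMod q → ℕ,
      j = fun z => ⌊7 * ((r * z.2).val : ℝ) / (κ * q)⌋₊ := ⟨_, rfl⟩
  have hmap : ∀ z ∈ Γ, j z ∈ Finset.range L := by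
    intro z _
    rw [Finset.mem_range, hL, hj, Nat.lt_succ_iff]
    have h1 : 7 * ((r * z.2).val : ℝ) / (κ * q) ≤ 7 / κ := by
      rw [div_le_div_iff₀ (by positivity) hκ]
      have h2 : ((r * z.2).val : ℝ) ≤ q := by
        exact_mod_cast (ZMod.val_lt (r * z.2)).le
      nlinarith
    exact (Nat.floor_le_ceil _).trans (Nat.ceil_le_ceil h1)
  obtain ⟨j0, -, hj0⟩ := Finset.exists_le_card_fiber_of_nsmul_le_card_of_maps_to
    (b := (Γ.card : ℝ) / L) hmap ⟨0, by
      rw [Finset.mem_range, hL]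
      omega⟩ (by
      rw [Finset.card_range, nsmul_eq_mul, mul_div_cancel₀ _ hL0.ne'])
  refine ⟨Γ.filter fun z => j z = j0, Finset.filter_subset _ _, ?_, ?_⟩
  · rw [one_div, inv_mul_eq_div]
    exact hj0
  -- differences
  have hdiff : ∀ z ∈ Γ.filter (fun z => j z = j0), ∀ z' ∈ Γ.filter (fun z => j z = j0),
      nr (r * (z.2 - z'.2)) ≤ κ / 7 := by
    intro z hz z' hz'
    have e1 : j z = j z' := by
      rw [(Finset.mem_filter.1 hz).2, (Finset.mem_filter.1 hz').2]
    rw [hj] at e1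
    have hkq : 0 < κ * q := by positivity
    have a0 : 0 ≤ 7 * ((r * z.2).val : ℝ) / (κ * q) := by positivity
    have b0 : 0 ≤ 7 * ((r * z'.2).val : ℝ) / (κ * q) := by positivity
    have a1 := Nat.floor_le a0
    have a2 := Nat.lt_floor_add_one (7 * ((r * z.2).val : ℝ) / (κ * q))
    have b1 := Nat.floor_le b0
    have b2 := Nat.lt_floor_add_one (7 * ((r * z'.2).val : ℝ) / (κ * q))
    simp only at e1
    rw [e1] at a1 a2
    have h3 : |7 * ((r * z.2).val : ℝ) / (κ * q) - 7 * ((r * z'.2).val : ℝ) / (κ * q)| ≤ 1 := by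
      rw [abs_le]
      constructor <;> linarith
    have h4 : 7 * ((r * z.2).val : ℝ) / (κ * q) - 7 * ((r * z'.2).val : ℝ) / (κ * q) =
        (((r * z.2).val : ℝ) - (r * z'.2).val) * (7 / (κ * q)) := by ring
    rw [h4, abs_mul, abs_of_pos (by positivity : 0 < 7 / (κ * q))] at h3
    have h5 : |((r * z.2).val : ℝ) - (r * z'.2).val| ≤ κ * q / 7 := by
      rw [← le_div_iff₀ (by positivity)] at h3
      have : 1 / (7 / (κ * q)) = κ * q / 7 := by field_simp
      rwa [this] at h3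
    have h6 := nr_le_of_cast (r * (z.2 - z'.2)) (((r * z.2).val : ℤ) - (r * z'.2).val) (by
      push_cast
      rw [ZMod.natCast_zmod_val, ZMod.natCast_zmod_val]
      ring)
    refine h6.trans ?_
    rw [div_le_iff₀ hq]
    push_cast
    linarith
  intro x y hx hy hxy
  have hv := hV x y (fun i => (Finset.mem_filter.1 (hx i)).1)
    (fun i => (Finset.mem_filter.1 (hy i)).1) hxy
  by_contra hne2
  have hv0 : ∑ i, (x i).2 - ∑ i, (y i).2 ≠ 0 := sub_ne_zero.2 hne2
  have h7 := hrV _ hv hv0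
  have h8 : r * (∑ i, (x i).2 - ∑ i, (y i).2) = ∑ i, r * ((x i).2 - (y i).2) := by
    rw [← Finset.sum_sub_distrib, Finset.mul_sum]
  rw [h8] at h7
  have h9 := nr_sum_le hNR Finset.univ fun i => r * ((x i).2 - (y i).2)
  have h10 : ∑ i, nr (r * ((x i).2 - (y i).2)) ≤ ∑ _i : Fin 6, κ / 7 :=
    Finset.sum_le_sum fun i _ => hdiff _ (hx i) _ (hy i)
  rw [Finset.sum_const, Finset.card_univ, Fintype.card_fin, nsmul_eq_mul] at h10
  push_cast at h10
  linarith

end Pool.Agent.H61.GU
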